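import Mathlib.RingTheory.Polynomial.Basic
import Mathlib.RingTheory.Noetherian.Basic
import Mathlib.RingTheory.MvPolynomial.Basic
import Mathlib.Algebra.DualNumber
import Mathlib.Algebra.MvPolynomial.CommRing
import Mathlib.RingTheory.Finiteness.Prod
import Mathlib.Tactic

/-!
MP_72f8f6_ag: `C((I, f))` need not lie in `(C(I), f)`.

`R` is the subring of `ℤ[ε] × ℤ[ε]` of all `(a + c ε, b + d ε)` with `a ≡ b mod 2`, the ideal `I` is
generated by `ε₁ = (ε, 0)` and `ε₂ = (0, ε)`, and `f = 2`. Then `e = (2, 0)` lies in `C((I, f))` but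
not in `C(I) + f R`.
-/

set_option autoImplicit false

namespace Pool.Agent.Results.MP_72f8f6_ag.ConductorCounterexample

open MvPolynomial

/-- The ideal `J` of `R[y_1, …, y_m]`: the kernel of `R[y_1, …, y_m] → R[t]`, `y_j ↦ g_j t`, the
defining ideal of the Rees algebra of `(g_1, …, g_m)`. -/
noncomputable def reesIdeal {R : Type} [CommRing R] {m : ℕ} (g : Fin m → R) :
    Ideal (MvPolynomial (Fin m) R) :=
  RingHom.ker (aeval (fun j => Polynomial.C (g j) * Polynomial.X) :
    MvPolynomial (Fin m) R →ₐ[R] Polynomial R)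

/-- The ideal `L` of `R[y_1, …, y_m]` generated by the linear forms `∑ a_i y_i` with
`∑ a_i g_i = 0`. -/
noncomputable def linIdeal {R : Type} [CommRing R] {m : ℕ} (g : Fin m → R) :
    Ideal (MvPolynomial (Fin m) R) :=
  Ideal.span {F | ∃ a : Fin m → R, ∑ i, a i * g i = 0 ∧ F = ∑ i, C (a i) * X i}

/-- The conductor `C(I) = L :_R J` of the ideal `I = (g_1, …, g_m)`. -/
noncomputable def conductor {R : Type} [CommRing R] {m : ℕ} (g : Fin m → R) : Ideal R where
  carrier := {r | ∀ F ∈ reesIdeal g, C r * F ∈ linIdeal g}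
  add_mem' {a b} ha hb F hF := by
    rw [C_add, add_mul]
    exact Ideal.add_mem _ (ha F hF) (hb F hF)
  zero_mem' F _ := by
    rw [C_0, zero_mul]
    exact Ideal.zero_mem _
  smul_mem' c r hr F hF := by
    rw [smul_eq_mul, C_mul, mul_assoc]
    exact Ideal.mul_mem_left _ _ (hr F hF)

/-- The pairs `(a + c ε, b + d ε)` of dual numbers with `a ≡ b mod 2`. -/
def RR : Subring (DualNumber ℤ × DualNumber ℤ) where
  carrier := {x | (2 : ℤ) ∣ x.1.fst - x.2.fst}
  mul_mem' {x y} hx hy := by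
    obtain ⟨k, hk⟩ := hx
    obtain ⟨l, hl⟩ := hy
    refine ⟨k * y.1.fst + x.2.fst * l, ?_⟩
    simp only [Prod.fst_mul, Prod.snd_mul, TrivSqZeroExt.fst_mul]
    linear_combination y.1.fst * hk + x.2.fst * hl
  one_mem' := by simp
  add_mem' {x y} hx hy := by
    have := dvd_add hx hy
    simpa [add_sub_add_comm] using this
  zero_mem' := by simp
  neg_mem' {x} hx := by
    have := (dvd_neg).mpr hx
    simpa [neg_sub, neg_add_eq_sub] using this

instance : IsNoetherianRing RR := by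
  have h0 : Module.Finite ℤ (DualNumber ℤ × DualNumber ℤ) :=
    inferInstanceAs (Module.Finite ℤ ((ℤ × ℤ) × (ℤ × ℤ)))
  have h1 : IsNoetherian ℤ (DualNumber ℤ × DualNumber ℤ) := isNoetherian_of_isNoetherianRing_of_finite _ _
  have h2 : IsNoetherian ℤ RR :=
    isNoetherian_of_injective (RR.subtype.toAddMonoidHom.toIntLinearMap) Subtype.val_injective
  exact isNoetherian_of_tower ℤ h2

/-- `ε₁ = (ε, 0)` -/
def e1 : RR := ⟨(TrivSqZeroExt.inr 1, 0), by simp [RR]⟩

/-- `ε₂ = (0, ε)` -/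
def e2 : RR := ⟨(0, TrivSqZeroExt.inr 1), by simp [RR]⟩

/-- `e = (2, 0)` -/
def ee : RR := ⟨(TrivSqZeroExt.inl 2, 0), by simp [RR]⟩

lemma ext4 {x y : RR} (h1 : x.1.1.fst = y.1.1.fst) (h2 : x.1.1.snd = y.1.1.snd)
    (h3 : x.1.2.fst = y.1.2.fst) (h4 : x.1.2.snd = y.1.2.snd) : x = y :=
  Subtype.ext (Prod.ext (TrivSqZeroExt.ext h1 h2) (TrivSqZeroExt.ext h3 h4))

lemma e1_e1 : e1 * e1 = 0 := by apply ext4 <;> simp [e1]

lemma e1_e2 : e1 * e2 = 0 := by apply ext4 <;> simp [e1, e2]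

lemma e2_e2 : e2 * e2 = 0 := by apply ext4 <;> simp [e2]

lemma two_eq : (2 : RR) = ⟨(TrivSqZeroExt.inl 2, TrivSqZeroExt.inl 2), by simp [RR]⟩ := rfl

lemma ee_e1 : ee * e1 = 2 * e1 := by rw [two_eq]; apply ext4 <;> simp [e1, ee]

lemma ee_e2 : ee * e2 = 0 := by apply ext4 <;> simp [e2, ee]

lemma eq_zero_of_two_mul {x : RR} (h : x * 2 = 0) : x = 0 := by
  rw [two_eq] at h
  have h' := congrArg Subtype.val h
  have h1 := congrArg (fun z : DualNumber ℤ × DualNumber ℤ => z.1.fst) h'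
  have h2 := congrArg (fun z : DualNumber ℤ × DualNumber ℤ => z.1.snd) h'
  have h3 := congrArg (fun z : DualNumber ℤ × DualNumber ℤ => z.2.fst) h'
  have h4 := congrArg (fun z : DualNumber ℤ × DualNumber ℤ => z.2.snd) h'
  simp at h1 h2 h3 h4
  apply ext4 <;> simp [h1, h2, h3, h4]

lemma eq_zero_of_two_pow_mul {x : RR} (n : ℕ) (h : x * 2 ^ n = 0) : x = 0 := by
  induction n with
  | zero => simpa using h
  | succ n ih =>
    apply ih
    apply eq_zero_of_two_mul
    rw [mul_assoc, ← pow_succ]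
    exact h

/-- generators of `(I, f)` -/
def gg : Fin 3 → RR := ![e1, e2, 2]

lemma lin_mem (a b c : RR) (h : a * e1 + b * e2 + c * 2 = 0) :
    C a * X 0 + C b * X 1 + C c * X 2 ∈ linIdeal gg := by
  refine Ideal.subset_span ⟨![a, b, c], ?_, ?_⟩
  · simpa [gg, Fin.sum_univ_three] using h
  · simp [Fin.sum_univ_three]

/-- the linear map with `e · F = ι (β F)` in the symmetric algebra -/
noncomputable def beta : MvPolynomial (Fin 3) RR →ₗ[RR] Polynomial RR :=
  (basisMonomials (Fin 3) RR).constr RR (fun m : Fin 3 →₀ ℕ =>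
    if m 1 = 0 then (if m 0 = 0 then Polynomial.C ee * Polynomial.X ^ (m 2) else
      if m 0 = 1 then Polynomial.C e1 * Polynomial.X ^ (m 2 + 1) else 0) else 0)

lemma beta_monomial (m : Fin 3 →₀ ℕ) (c : RR) : beta (monomial m c) =
    c • (if m 1 = 0 then (if m 0 = 0 then Polynomial.C ee * Polynomial.X ^ (m 2) else
      if m 0 = 1 then Polynomial.C e1 * Polynomial.X ^ (m 2 + 1) else 0) else 0) := by
  have h : (monomial m c : MvPolynomial (Fin 3) RR) = c • basisMonomials (Fin 3) RR m := by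
    rw [coe_basisMonomials, smul_monomial, smul_eq_mul, mul_one]
  rw [h, map_smul, beta, Module.Basis.constr_basis]

lemma monomial_eq3 (m : Fin 3 →₀ ℕ) (c : RR) : (monomial m c : MvPolynomial (Fin 3) RR) =
    C c * (X 0 ^ (m 0) * X 1 ^ (m 1) * X 2 ^ (m 2)) := by
  rw [monomial_eq, Finsupp.prod_fintype _ _ (by simp), Fin.prod_univ_three]

lemma beta_mem (F : MvPolynomial (Fin 3) RR) :
    C ee * F - (beta F).eval₂ C (X 2) ∈ linIdeal gg := by
  induction F using MvPolynomial.induction_on' with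
  | add f g hf hg =>
    rw [map_add, Polynomial.eval₂_add, mul_add, add_sub_add_comm]
    exact Ideal.add_mem _ hf hg
  | monomial m c =>
    rw [beta_monomial, monomial_eq3]
    have t1 : C ee * X 1 ∈ linIdeal gg := by
      have := lin_mem 0 ee 0 (by rw [ee_e2]; ring)
      simpa using this
    have t2 : C ee * X 0 - C e1 * X 2 ∈ linIdeal gg := by
      convert lin_mem ee 0 (-e1) (by rw [ee_e1]; ring) using 1
      rw [C_neg, C_0]
      ring
    have t3 : C e1 * X 0 ∈ linIdeal gg := by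
      have := lin_mem e1 0 0 (by rw [e1_e1]; ring)
      simpa using this
    split_ifs with h1 h2 h3
    · rw [h1, h2]
      convert Ideal.zero_mem (linIdeal gg) using 1
      rw [Polynomial.smul_eq_C_mul]
      simp only [Polynomial.eval₂_mul, Polynomial.eval₂_C, Polynomial.eval₂_X_pow]
      ring
    · rw [h1, h3]
      convert Ideal.mul_mem_left _ (C c * X 2 ^ m 2) t2 using 1
      rw [Polynomial.smul_eq_C_mul]
      simp only [Polynomial.eval₂_mul, Polynomial.eval₂_C, Polynomial.eval₂_X_pow]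
      ring
    · obtain ⟨k, hk⟩ : ∃ k, m 0 = k + 2 := ⟨m 0 - 2, by omega⟩
      rw [hk, smul_zero, Polynomial.eval₂_zero, sub_zero]
      convert Ideal.add_mem _
        (Ideal.mul_mem_left _ (C c * X 0 ^ (k + 1) * X 1 ^ m 1 * X 2 ^ m 2) t2)
        (Ideal.mul_mem_left _ (C c * X 0 ^ k * X 1 ^ m 1 * X 2 ^ (m 2 + 1)) t3) using 1
      ring
    · obtain ⟨k, hk⟩ : ∃ k, m 1 = k + 1 := ⟨m 1 - 1, by omega⟩
      rw [hk, smul_zero, Polynomial.eval₂_zero, sub_zero]
      convert Ideal.mul_mem_left _ (C c * X 0 ^ m 0 * X 1 ^ k * X 2 ^ m 2) t1 using 1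
      ring

lemma beta_comp (F : MvPolynomial (Fin 3) RR) :
    (beta F).comp (Polynomial.C 2 * Polynomial.X) = Polynomial.C ee *
      (aeval (fun j => Polynomial.C (gg j) * Polynomial.X) :
        MvPolynomial (Fin 3) RR →ₐ[RR] Polynomial RR) F := by
  induction F using MvPolynomial.induction_on' with
  | add f g hf hg =>
    rw [map_add, Polynomial.add_comp, hf, hg, map_add, mul_add]
  | monomial m c =>
    rw [beta_monomial, aeval_monomial, Finsupp.prod_fintype _ _ (by simp), Fin.prod_univ_three]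
    have g0 : gg 0 = e1 := rfl
    have g1 : gg 1 = e2 := rfl
    have g2 : gg 2 = 2 := rfl
    have u1 : Polynomial.C ee * Polynomial.C e2 = 0 := by
      rw [← Polynomial.C_mul, ee_e2, Polynomial.C_0]
    have u2 : Polynomial.C ee * Polynomial.C e1 = Polynomial.C e1 * Polynomial.C 2 := by
      rw [← Polynomial.C_mul, ee_e1, ← Polynomial.C_mul, mul_comm]
    have u3 : Polynomial.C e1 * Polynomial.C e1 = 0 := by
      rw [← Polynomial.C_mul, e1_e1, Polynomial.C_0]
    rw [g0, g1, g2, Polynomial.algebraMap_eq]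
    split_ifs with h1 h2 h3
    · rw [h1, h2, Polynomial.smul_eq_C_mul]
      simp only [Polynomial.mul_comp, Polynomial.C_comp, Polynomial.X_pow_comp]
      ring
    · rw [h1, h3, Polynomial.smul_eq_C_mul]
      simp only [Polynomial.mul_comp, Polynomial.C_comp, Polynomial.X_pow_comp]
      linear_combination -(Polynomial.C c * Polynomial.X *
        (Polynomial.C 2 * Polynomial.X) ^ m 2) * u2
    · obtain ⟨k, hk⟩ : ∃ k, m 0 = k + 2 := ⟨m 0 - 2, by omega⟩
      rw [hk, smul_zero, Polynomial.zero_comp]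
      have : (Polynomial.C e1 * Polynomial.X) ^ (k + 2) = 0 := by
        rw [mul_pow, pow_add, pow_two (Polynomial.C e1), u3]
        ring
      rw [this]
      ring
    · obtain ⟨k, hk⟩ : ∃ k, m 1 = k + 1 := ⟨m 1 - 1, by omega⟩
      rw [hk, smul_zero, Polynomial.zero_comp]
      rw [pow_succ (Polynomial.C e2 * Polynomial.X)]
      linear_combination -(Polynomial.C c * (Polynomial.C e1 * Polynomial.X) ^ m 0 *
        (Polynomial.C e2 * Polynomial.X) ^ k * Polynomial.X *
        (Polynomial.C 2 * Polynomial.X) ^ m 2) * u1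

lemma ee_mem : ee ∈ conductor gg := by
  intro F hF
  have h1 := beta_comp F
  rw [reesIdeal, RingHom.mem_ker] at hF
  rw [show (aeval (fun j => Polynomial.C (gg j) * Polynomial.X) :
        MvPolynomial (Fin 3) RR →ₐ[RR] Polynomial RR) F = 0 from hF, mul_zero] at h1
  have h2 : beta F = 0 := by
    ext n : 1
    rw [Polynomial.coeff_zero]
    have h3 := congrArg (fun P => Polynomial.coeff P n) h1
    rw [Polynomial.comp_C_mul_X_coeff, Polynomial.coeff_zero] at h3
    exact eq_zero_of_two_pow_mul n h3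
  have h4 := beta_mem F
  rwa [h2, Polynomial.eval₂_zero, sub_zero] at h4

/-- generators of `I` -/
def g2 : Fin 2 → RR := ![e1, e2]

lemma snoc_eq : (Fin.snoc (α := fun _ => RR) g2 2 : Fin 3 → RR) = gg := by
  funext i
  fin_cases i <;> rfl

/-- evaluation of the first component at `ε = 0` -/
def ev1 : RR →+* ℤ :=
  (TrivSqZeroExt.fstHom ℤ ℤ ℤ).toRingHom.comp ((RingHom.fst _ _).comp RR.subtype)

/-- evaluation of the second component at `ε = 0` -/
def ev2 : RR →+* ℤ :=
  (TrivSqZeroExt.fstHom ℤ ℤ ℤ).toRingHom.comp ((RingHom.snd _ _).comp RR.subtype)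

lemma ev1_apply (x : RR) : ev1 x = x.1.1.fst := rfl

lemma ev2_apply (x : RR) : ev2 x = x.1.2.fst := rfl

lemma lin_le_ker1 : linIdeal g2 ≤
    RingHom.ker (eval₂Hom (Polynomial.C.comp ev1) ![Polynomial.X, 0]) := by
  rw [linIdeal, Ideal.span_le]
  rintro _ ⟨a, ha, rfl⟩
  rw [SetLike.mem_coe, RingHom.mem_ker]
  simp only [Fin.sum_univ_two, map_add, map_mul, coe_eval₂Hom, eval₂_C, eval₂_X,
    RingHom.comp_apply, Matrix.cons_val_zero, Matrix.cons_val_one, mul_zero, add_zero]
  have h : ev1 (a 0) = 0 := by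
    have h1 := congrArg (fun x : RR => x.1.1.snd) ha
    simp [Fin.sum_univ_two, g2, e1, e2] at h1
    rw [ev1_apply]
    exact h1
  rw [h]
  simp

lemma lin_le_ker2 : linIdeal g2 ≤
    RingHom.ker (eval₂Hom (Polynomial.C.comp ev2) ![0, Polynomial.X]) := by
  rw [linIdeal, Ideal.span_le]
  rintro _ ⟨a, ha, rfl⟩
  rw [SetLike.mem_coe, RingHom.mem_ker]
  simp only [Fin.sum_univ_two, map_add, map_mul, coe_eval₂Hom, eval₂_C, eval₂_X,
    RingHom.comp_apply, Matrix.cons_val_zero, Matrix.cons_val_one, mul_zero, zero_add]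
  have h : ev2 (a 1) = 0 := by
    have h1 := congrArg (fun x : RR => x.1.2.snd) ha
    simp [Fin.sum_univ_two, g2, e1, e2] at h1
    rw [ev2_apply]
    exact h1
  rw [h]
  simp

lemma ev_conductor (c : RR) (hc : c ∈ conductor g2) : ev1 c = 0 ∧ ev2 c = 0 := by
  constructor
  · have h1 : (X 0 ^ 2 : MvPolynomial (Fin 2) RR) ∈ reesIdeal g2 := by
      rw [reesIdeal, RingHom.mem_ker]
      change (aeval _ : MvPolynomial (Fin 2) RR →ₐ[RR] Polynomial RR) (X 0 ^ 2) = 0
      rw [map_pow, aeval_X, mul_pow, ← Polynomial.C_pow, pow_two (g2 0)]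
      change Polynomial.C (e1 * e1) * _ = 0
      rw [e1_e1, Polynomial.C_0, zero_mul]
    have h2 := lin_le_ker1 (hc _ h1)
    rw [RingHom.mem_ker, map_mul, map_pow, coe_eval₂Hom, eval₂_C, eval₂_X] at h2
    simpa using h2
  · have h1 : (X 1 ^ 2 : MvPolynomial (Fin 2) RR) ∈ reesIdeal g2 := by
      rw [reesIdeal, RingHom.mem_ker]
      change (aeval _ : MvPolynomial (Fin 2) RR →ₐ[RR] Polynomial RR) (X 1 ^ 2) = 0
      rw [map_pow, aeval_X, mul_pow, ← Polynomial.C_pow, pow_two (g2 1)]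
      change Polynomial.C (e2 * e2) * _ = 0
      rw [e2_e2, Polynomial.C_0, zero_mul]
    have h2 := lin_le_ker2 (hc _ h1)
    rw [RingHom.mem_ker, map_mul, map_pow, coe_eval₂Hom, eval₂_C, eval₂_X] at h2
    simpa using h2

lemma ee_notMem : ee ∉ conductor g2 ⊔ Ideal.span {(2 : RR)} := by
  intro h
  obtain ⟨c, hc, d, hd, hcd⟩ := Submodule.mem_sup.mp h
  obtain ⟨r, rfl⟩ := Ideal.mem_span_singleton'.mp hd
  obtain ⟨h1, h2⟩ := ev_conductor c hc
  have h3 := congrArg ev1 hcd
  have h4 := congrArg ev2 hcd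
  rw [map_add, map_mul, h1, map_ofNat] at h3
  rw [map_add, map_mul, h2, map_ofNat] at h4
  have h5 : ev1 ee = 2 := rfl
  have h6 : ev2 ee = 0 := rfl
  rw [h5] at h3
  rw [h6] at h4
  have h7 : (2 : ℤ) ∣ ev1 r - ev2 r := r.2
  omega

lemma span_eq : Ideal.span (Set.range g2) = Ideal.span {e1, e2} := by
  congr 1
  simp [g2, Matrix.range_cons, Set.pair_comm]

lemma mem_span_iff (x : RR) : x ∈ Ideal.span (Set.range g2) ↔ ev1 x = 0 ∧ ev2 x = 0 := by
  rw [span_eq, Ideal.mem_span_pair]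
  constructor
  · rintro ⟨a, b, rfl⟩
    have h1 : ev1 e1 = 0 := rfl
    have h2 : ev1 e2 = 0 := rfl
    have h3 : ev2 e1 = 0 := rfl
    have h4 : ev2 e2 = 0 := rfl
    simp [h1, h2, h3, h4]
  · rintro ⟨h1, h2⟩
    rw [ev1_apply] at h1
    rw [ev2_apply] at h2
    refine ⟨((x.1.1.snd : ℤ) : RR), ((x.1.2.snd : ℤ) : RR), ?_⟩
    apply ext4 <;> simp [e1, e2, h1, h2]

/-- There are a Noetherian ring `R`, an ideal `I = (g_1, …, g_m)` and `f ∈ R` with `I^j : f = I^j`
for all `j ≥ 0` such that `C((I, f))` does not lie in `C(I) + f R`. -/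
theorem result : ∃ (R : Type) (_ : CommRing R), IsNoetherianRing R ∧
    ∃ (m : ℕ) (g : Fin m → R) (f : R),
      (∀ (j : ℕ) (r : R), r * f ∈ Ideal.span (Set.range g) ^ j ↔
        r ∈ Ideal.span (Set.range g) ^ j) ∧
      ¬ conductor (Fin.snoc (α := fun _ => R) g f) ≤ conductor g ⊔ Ideal.span {f} := by
  refine ⟨RR, inferInstance, inferInstance, 2, g2, 2, ?_, ?_⟩
  · intro j r
    refine ⟨?_, fun h => Ideal.mul_mem_right _ _ h⟩
    match j with
    | 0 => intro _; rw [pow_zero, Ideal.one_eq_top]; trivial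
    | 1 =>
      rw [pow_one, mem_span_iff, mem_span_iff, map_mul, map_mul, map_ofNat, map_ofNat]
      omega
    | j + 2 =>
      have h0 : Ideal.span (Set.range g2) ^ (j + 2) = ⊥ := by
        rw [pow_add, pow_two, span_eq, Ideal.span_pair_mul_span_pair, e1_e1, e1_e2, e2_e2,
          mul_comm e2 e1, e1_e2]
        simp
      rw [h0, Ideal.mem_bot, Ideal.mem_bot]
      exact eq_zero_of_two_mul
  · intro h
    apply ee_notMem
    apply h
    have := ee_mem
    rw [← snoc_eq] at this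
    exact this

end Pool.Agent.Results.MP_72f8f6_ag.ConductorCounterexample
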